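import Mathlib

set_option autoImplicit false
open scoped Pointwise

namespace Pool.Agent.V8H49.Birkhoff

open PowerSeries

/-- the six vertices -/
def vert : Fin 6 → (Fin 4 → ℤ) :=
  ![![1,0,0,0], ![0,1,0,0], ![1,1,0,0], ![0,0,1,0], ![0,0,0,1], ![0,0,1,1]]

/-- the vertex set -/
def V : Finset (Fin 4 → ℤ) := Finset.univ.image vert

/-- the swap of the two coordinate planes -/
def gm : Matrix (Fin 4) (Fin 4) ℤ := !![0,0,1,0; 0,0,0,1; 1,0,0,0; 0,1,0,0]

theorem gm_mul : gm * gm = 1 := by decide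

/-- the swap as a unit -/
def gu : Matrix.GeneralLinearGroup (Fin 4) ℤ := ⟨gm, gm, gm_mul, gm_mul⟩

theorem gu_mul : gu * gu = 1 := Units.ext gm_mul

/-- the action of the group with two elements -/
def rho : ℤˣ →* Matrix.GeneralLinearGroup (Fin 4) ℤ where
  toFun u := if u = 1 then 1 else gu
  map_one' := by simp
  map_mul' := by
    intro a b
    rcases Int.units_eq_one_or a with rfl | rfl <;> rcases Int.units_eq_one_or b with rfl | rfl
    · simp
    · simp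
    · simp
    · have h : (-1 : ℤˣ) ≠ 1 := by decide
      rw [if_neg h, gu_mul]
      simp

theorem rho_one : rho 1 = 1 := map_one _

theorem rho_neg : rho (-1) = gu := by
  have h : (-1 : ℤˣ) ≠ 1 := by decide
  show (if (-1 : ℤˣ) = 1 then 1 else gu) = gu
  rw [if_neg h]

theorem gm_mulVec (x : Fin 4 → ℤ) : Matrix.mulVec gm x = ![x 2, x 3, x 0, x 1] := by
  funext i
  fin_cases i <;> simp [gm, Matrix.mulVec, dotProduct, Fin.sum_univ_four]

/-- the polytope -/
def P : Set (Fin 4 → ℝ) := convexHull ℝ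
  ((fun v : Fin 4 → ℤ => fun j => ((v j : ℤ) : ℝ)) '' (V : Set (Fin 4 → ℤ)))

/-- inequalities of the dilated polytope -/
def InP (m : ℝ) (x : Fin 4 → ℝ) : Prop :=
  0 ≤ x 0 ∧ 0 ≤ x 1 ∧ 0 ≤ x 2 ∧ 0 ≤ x 3 ∧ m ≤ x 0 + x 1 + x 2 + x 3 ∧
  x 0 + x 2 ≤ m ∧ x 0 + x 3 ≤ m ∧ x 1 + x 2 ≤ m ∧ x 1 + x 3 ≤ m

theorem vert_mem (i : Fin 6) : (fun j => ((vert i j : ℤ) : ℝ)) ∈ P :=
  subset_convexHull ℝ _ ⟨vert i, by simp [V], rfl⟩

theorem convex_InP : Convex ℝ {x | InP 1 x} := by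
  intro x hx y hy a b ha hb hab
  obtain ⟨h0, h1, h2, h3, h4, h5, h6, h7, h8⟩ := hx
  obtain ⟨k0, k1, k2, k3, k4, k5, k6, k7, k8⟩ := hy
  simp only [Set.mem_ofPred_eq, InP, Pi.add_apply, Pi.smul_apply, smul_eq_mul]
  have hb' : b = 1 - a := by linarith
  subst hb'
  refine ⟨by positivity, by positivity, by positivity, by positivity, ?_, ?_, ?_, ?_, ?_⟩ <;>
    nlinarith

theorem P_subset {x : Fin 4 → ℝ} (hx : x ∈ P) : InP 1 x := by
  refine convexHull_min ?_ convex_InP hx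
  rintro _ ⟨v, hv, rfl⟩
  simp only [V, Finset.coe_image, Finset.coe_univ, Set.image_univ, Set.mem_range] at hv
  obtain ⟨i, rfl⟩ := hv
  fin_cases i <;> simp [InP, vert]

theorem InP_of_mem {m : ℕ} {x : Fin 4 → ℝ} (hx : x ∈ (m : ℝ) • P) : InP m x := by
  obtain ⟨p, hp, rfl⟩ := hx
  obtain ⟨h0, h1, h2, h3, h4, h5, h6, h7, h8⟩ := P_subset hp
  have hm : (0 : ℝ) ≤ m := Nat.cast_nonneg m
  simp only [InP, Pi.smul_apply, smul_eq_mul]
  refine ⟨by positivity, by positivity, by positivity, by positivity, ?_, ?_, ?_, ?_, ?_⟩ <;>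
    nlinarith

theorem mem_of_InP {m : ℕ} {x : Fin 4 → ℝ} (hx : InP m x) : x ∈ (m : ℝ) • P := by
  obtain ⟨h0, h1, h2, h3, h4, h5, h6, h7, h8⟩ := hx
  rcases Nat.eq_zero_or_pos m with rfl | hm
  · refine ⟨_, vert_mem 0, ?_⟩
    simp only [Nat.cast_zero] at *
    funext j
    fin_cases j <;> simp <;> linarith
  · have hm' : (0 : ℝ) < m := Nat.cast_pos.2 hm
    set s : ℝ := max (max (x 0) (x 1)) (m - (x 2 + x 3)) with hs
    have s0 : x 0 ≤ s := le_trans (le_max_left _ _) (le_max_left _ _)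
    have s1 : x 1 ≤ s := le_trans (le_max_right _ _) (le_max_left _ _)
    have s2 : m - (x 2 + x 3) ≤ s := le_max_right _ _
    have s3 : s ≤ x 0 + x 1 := by
      refine max_le (max_le ?_ ?_) ?_ <;> linarith
    have s4 : s ≤ m - x 3 := by
      refine max_le (max_le ?_ ?_) ?_ <;> linarith
    have s5 : s ≤ m - x 2 := by
      refine max_le (max_le ?_ ?_) ?_ <;> linarith
    let w : Fin 6 → ℝ := ![(s - x 1) / m, (s - x 0) / m, (x 0 + x 1 - s) / m,
      (m - s - x 3) / m, (m - s - x 2) / m, (x 2 + x 3 - (m - s)) / m]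
    have hw : ∀ i ∈ (Finset.univ : Finset (Fin 6)), 0 ≤ w i := by
      intro i _
      fin_cases i <;> simp only [w] <;> refine div_nonneg ?_ hm'.le <;> simp <;> linarith
    have hw1 : ∑ i ∈ (Finset.univ : Finset (Fin 6)), w i = 1 := by
      simp only [Fin.sum_univ_six, w]
      simp
      field_simp
      ring
    have key := (convex_convexHull ℝ ((fun v : Fin 4 → ℤ => fun j => ((v j : ℤ) : ℝ)) ''
      (V : Set (Fin 4 → ℤ)))).sum_mem hw hw1 (fun i _ => vert_mem i)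
    refine ⟨_, key, ?_⟩
    funext j
    simp only [Pi.smul_apply, smul_eq_mul, Fin.sum_univ_six]
    fin_cases j <;> simp [w, vert] <;> field_simp <;> ring

theorem mem_smul_iff (m : ℕ) (x : Fin 4 → ℤ) :
    (fun j => ((x j : ℤ) : ℝ)) ∈ (m : ℝ) • P ↔
      (0 ≤ x 0 ∧ 0 ≤ x 1 ∧ 0 ≤ x 2 ∧ 0 ≤ x 3 ∧ (m : ℤ) ≤ x 0 + x 1 + x 2 + x 3 ∧
      x 0 + x 2 ≤ m ∧ x 0 + x 3 ≤ m ∧ x 1 + x 2 ≤ m ∧ x 1 + x 3 ≤ m) := by
  constructor
  · intro h
    have := InP_of_mem h
    simp only [InP] at this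
    exact_mod_cast this
  · intro h
    refine mem_of_InP ?_
    simp only [InP]
    exact_mod_cast h

theorem span_top : vectorSpan ℝ P = ⊤ := by
  have hd : ∀ i j : Fin 6, ((fun k => ((vert i k : ℤ) : ℝ)) - (fun k => ((vert j k : ℤ) : ℝ)) :
      Fin 4 → ℝ) ∈ vectorSpan ℝ P := fun i j => by
    have := vsub_mem_vectorSpan ℝ (vert_mem i) (vert_mem j)
    simpa using this
  rw [eq_top_iff]
  intro x _
  have e : x = x 0 • ((fun k => ((vert 2 k : ℤ) : ℝ)) - (fun k => ((vert 1 k : ℤ) : ℝ)) : Fin 4 → ℝ)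
      + x 1 • ((fun k => ((vert 2 k : ℤ) : ℝ)) - (fun k => ((vert 0 k : ℤ) : ℝ)) : Fin 4 → ℝ)
      + x 2 • ((fun k => ((vert 5 k : ℤ) : ℝ)) - (fun k => ((vert 4 k : ℤ) : ℝ)) : Fin 4 → ℝ)
      + x 3 • ((fun k => ((vert 5 k : ℤ) : ℝ)) - (fun k => ((vert 3 k : ℤ) : ℝ)) : Fin 4 → ℝ) := by
    funext k
    fin_cases k <;> simp [vert]
  rw [e]
  exact Submodule.add_mem _ (Submodule.add_mem _ (Submodule.add_mem _
    (Submodule.smul_mem _ _ (hd _ _)) (Submodule.smul_mem _ _ (hd _ _)))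
    (Submodule.smul_mem _ _ (hd _ _))) (Submodule.smul_mem _ _ (hd _ _))

/-! ### counting -/

theorem card_tuple (k m : ℕ) :
    (Finset.Nat.antidiagonalTuple (k + 1) m).card = Nat.choose (k + m) k := by
  have h1 : Nat.card {p : Fin (k + 1) → ℕ // ∑ i, p i = m} =
      (Finset.Nat.antidiagonalTuple (k + 1) m).card :=
    Nat.subtype_card _ (fun x => Finset.Nat.mem_antidiagonalTuple)
  rw [← h1, ← Nat.card_congr (Sym.equivNatSumOfFintype (Fin (k + 1)) m), Nat.card_eq_fintype_card,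
    Sym.card_sym_fin_eq_multichoose, Nat.multichoose_eq]
  rw [show k + 1 + m - 1 = k + m by omega]
  exact Nat.choose_symm_of_eq_add rfl |>.symm

/-- integer points of the dilates -/
def A (m : ℕ) : Set (Fin 4 → ℤ) := {x | 0 ≤ x 0 ∧ 0 ≤ x 1 ∧ 0 ≤ x 2 ∧ 0 ≤ x 3 ∧
  (m : ℤ) ≤ x 0 + x 1 + x 2 + x 3 ∧
  x 0 + x 2 ≤ m ∧ x 0 + x 3 ≤ m ∧ x 1 + x 2 ≤ m ∧ x 1 + x 3 ≤ m}

/-- the sum map -/
def phi (f : Fin 6 → ℕ) : Fin 4 → ℤ :=
  ![(f 0 : ℤ) + f 5, (f 1 : ℤ) + f 5, (f 3 : ℤ) + f 2, (f 4 : ℤ) + f 2]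

/-- standard representations -/
def F0 (m : ℕ) : Finset (Fin 6 → ℕ) :=
  (Finset.Nat.antidiagonalTuple 6 m).filter fun f => f 0 = 0 ∨ f 1 = 0 ∨ f 2 = 0

theorem A_eq (m : ℕ) : A m = phi '' (F0 m : Set (Fin 6 → ℕ)) := by
  ext x
  simp only [A, Set.mem_image, Finset.mem_coe, F0, Finset.mem_filter,
    Finset.Nat.mem_antidiagonalTuple, Fin.sum_univ_six]
  constructor
  · rintro ⟨h0, h1, h2, h3, h4, h5, h6, h7, h8⟩
    obtain ⟨s, s0, s1, s2, sd⟩ : ∃ s : ℤ, x 0 ≤ s ∧ x 1 ≤ s ∧ m - (x 2 + x 3) ≤ s ∧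
        (s = x 0 ∨ s = x 1 ∨ s = m - (x 2 + x 3)) := by
      refine ⟨max (max (x 0) (x 1)) (m - (x 2 + x 3)), ?_, ?_, ?_, ?_⟩ <;> omega
    refine ⟨![(s - x 1).toNat, (s - x 0).toNat, (x 2 + x 3 - (m - s)).toNat,
      (m - s - x 3).toNat, (m - s - x 2).toNat, (x 0 + x 1 - s).toNat], ⟨?_, ?_⟩, ?_⟩
    · simp
      omega
    · simp
      omega
    · funext j
      fin_cases j <;> simp [phi] <;> omega
  · rintro ⟨f, ⟨hf, _⟩, rfl⟩
    simp [phi]
    omega

theorem phi_inj (m : ℕ) : Set.InjOn phi (F0 m : Set (Fin 6 → ℕ)) := by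
  intro f hf g hg h
  simp only [F0, Finset.coe_filter, Finset.Nat.mem_antidiagonalTuple, Fin.sum_univ_six] at hf hg
  obtain ⟨hf1, hf2⟩ := hf
  obtain ⟨hg1, hg2⟩ := hg
  have e0 := congrFun h 0
  have e1 := congrFun h 1
  have e2 := congrFun h 2
  have e3 := congrFun h 3
  simp [phi] at e0 e1 e2 e3
  funext j
  fin_cases j <;> simp <;> omega

theorem ncard_A (m : ℕ) : (A m).ncard = (F0 m).card := by
  rw [A_eq, (phi_inj m).ncard_image, Set.ncard_coe_finset]

theorem card_F0 (m : ℕ) :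
    (F0 m).card + (if 3 ≤ m then Nat.choose (5 + (m - 3)) 5 else 0) = Nat.choose (5 + m) 5 := by
  rw [show Nat.choose (5 + m) 5 = (Finset.Nat.antidiagonalTuple 6 m).card from
    (card_tuple 5 m).symm]
  have h := Finset.card_filter_add_card_filter_not (s := Finset.Nat.antidiagonalTuple 6 m)
    (fun f => f 0 = 0 ∨ f 1 = 0 ∨ f 2 = 0)
  have h2 : ((Finset.Nat.antidiagonalTuple 6 m).filter
      fun f => ¬ (f 0 = 0 ∨ f 1 = 0 ∨ f 2 = 0)).card =
      if 3 ≤ m then Nat.choose (5 + (m - 3)) 5 else 0 := by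
    split_ifs with hm
    · rw [show Nat.choose (5 + (m - 3)) 5 = (Finset.Nat.antidiagonalTuple 6 (m - 3)).card from
        (card_tuple 5 (m - 3)).symm]
      refine Finset.card_nbij' (fun f => ![f 0 - 1, f 1 - 1, f 2 - 1, f 3, f 4, f 5])
        (fun f => ![f 0 + 1, f 1 + 1, f 2 + 1, f 3, f 4, f 5]) ?_ ?_ ?_ ?_
      · intro f hf
        simp only [Finset.coe_filter, Finset.Nat.mem_antidiagonalTuple, Fin.sum_univ_six,
          Finset.mem_coe] at hf ⊢
        obtain ⟨h1, h2⟩ := hf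
        show f 0 - 1 + (f 1 - 1) + (f 2 - 1) + f 3 + f 4 + f 5 = m - 3
        omega
      · intro f hf
        simp only [Finset.coe_filter, Finset.Nat.mem_antidiagonalTuple, Fin.sum_univ_six,
          Finset.mem_coe] at hf ⊢
        refine ⟨?_, ?_⟩
        · show f 0 + 1 + (f 1 + 1) + (f 2 + 1) + f 3 + f 4 + f 5 = m
          omega
        · simp
      · intro f hf
        simp only [Finset.coe_filter, Finset.Nat.mem_antidiagonalTuple, Fin.sum_univ_six] at hf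
        obtain ⟨h1, h2⟩ := hf
        funext j
        fin_cases j <;> simp <;> omega
      · intro f _
        funext j
        fin_cases j <;> simp
    · rw [Finset.card_eq_zero, Finset.filter_eq_empty_iff]
      intro f hf
      rw [Finset.Nat.mem_antidiagonalTuple, Fin.sum_univ_six] at hf
      omega
  rw [F0, ← h2]
  exact h

/-! ### counting the fixed points -/

/-- fixed points of the swap in the dilates -/
def B (m : ℕ) : Set (Fin 4 → ℤ) := {x | x ∈ A m ∧ Matrix.mulVec gm x = x}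

theorem ncard_B_even (k : ℕ) : (B (2 * k)).ncard = Nat.choose (k + 2) 2 := by
  have h := card_tuple 2 k
  rw [add_comm 2 k] at h
  rw [← h]
  have e : B (2 * k) = (fun f : Fin 3 → ℕ => (![(k : ℤ) - f 0, (k : ℤ) - f 1, (k : ℤ) - f 0,
      (k : ℤ) - f 1] : Fin 4 → ℤ)) '' (Finset.Nat.antidiagonalTuple 3 k : Set (Fin 3 → ℕ)) := by
    ext x
    simp only [B, A, gm_mulVec, Set.mem_image, Finset.mem_coe,
      Finset.Nat.mem_antidiagonalTuple, Fin.sum_univ_three]
    constructor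
    · rintro ⟨⟨h0, h1, h2, h3, h4, h5, h6, h7, h8⟩, hg⟩
      have e0 := congrFun hg 0
      have e1 := congrFun hg 1
      simp at e0 e1 h0 h1 h2 h3 h4 h5 h6 h7 h8
      refine ⟨![(k - x 0).toNat, (k - x 1).toNat, (x 0 + x 1 - k).toNat], ?_, ?_⟩
      · simp
        omega
      · funext j
        fin_cases j <;> simp <;> omega
    · rintro ⟨f, hf, rfl⟩
      refine ⟨?_, ?_⟩
      · simp
        omega
      · funext j
        fin_cases j <;> simp
  rw [e, Set.InjOn.ncard_image, Set.ncard_coe_finset]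
  intro f hf g hg hfg
  simp only [Finset.mem_coe, Finset.Nat.mem_antidiagonalTuple, Fin.sum_univ_three] at hf hg
  have e0 := congrFun hfg 0
  have e1 := congrFun hfg 1
  simp at e0 e1
  funext j
  fin_cases j <;> simp <;> omega

theorem ncard_B_one : (B 1).ncard = 0 := by
  have e : B 1 = ∅ := by
    ext x
    simp only [B, A, gm_mulVec, Set.mem_empty_iff_false, iff_false]
    rintro ⟨⟨h0, h1, h2, h3, h4, h5, h6, h7, h8⟩, hg⟩
    have e0 := congrFun hg 0
    have e1 := congrFun hg 1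
    simp at e0 e1 h0 h1 h2 h3 h4 h5 h6 h7 h8
    omega
  rw [e, Set.ncard_empty]

theorem ncard_B_odd (k : ℕ) : (B (2 * k + 3)).ncard = Nat.choose (k + 2) 2 := by
  have h := card_tuple 2 k
  rw [add_comm 2 k] at h
  rw [← h]
  have e : B (2 * k + 3) = (fun f : Fin 3 → ℕ => (![(k : ℤ) + 1 - f 0, (k : ℤ) + 1 - f 1,
      (k : ℤ) + 1 - f 0,
      (k : ℤ) + 1 - f 1] : Fin 4 → ℤ)) '' (Finset.Nat.antidiagonalTuple 3 k : Set (Fin 3 → ℕ)) := by
    ext x
    simp only [B, A, gm_mulVec, Set.mem_image, Finset.mem_coe,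
      Finset.Nat.mem_antidiagonalTuple, Fin.sum_univ_three]
    constructor
    · rintro ⟨⟨h0, h1, h2, h3, h4, h5, h6, h7, h8⟩, hg⟩
      have e0 := congrFun hg 0
      have e1 := congrFun hg 1
      simp at e0 e1 h0 h1 h2 h3 h4 h5 h6 h7 h8
      refine ⟨![(k + 1 - x 0).toNat, (k + 1 - x 1).toNat, (x 0 + x 1 - k - 2).toNat], ?_, ?_⟩
      · simp
        omega
      · funext j
        fin_cases j <;> simp <;> omega
    · rintro ⟨f, hf, rfl⟩
      refine ⟨?_, ?_⟩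
      · simp
        omega
      · funext j
        fin_cases j <;> simp
  rw [e, Set.InjOn.ncard_image, Set.ncard_coe_finset]
  intro f hf g hg hfg
  simp only [Finset.mem_coe, Finset.Nat.mem_antidiagonalTuple, Fin.sum_univ_three] at hf hg
  have e0 := congrFun hfg 0
  have e1 := congrFun hfg 1
  simp at e0 e1
  funext j
  fin_cases j <;> simp <;> omega

/-! ### power series -/

theorem series_one : (PowerSeries.mk fun m : ℕ => ((A m).ncard : ℤ)) * (1 - X) ^ 5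
    = 1 + X + X ^ 2 := by
  have h1 : (PowerSeries.mk fun m : ℕ => ((A m).ncard : ℤ)) =
      (1 - X ^ 3) * (PowerSeries.mk fun n => ((Nat.choose (5 + n) 5 : ℕ) : ℤ)) := by
    ext m
    rw [sub_mul, one_mul, map_sub, PowerSeries.coeff_X_pow_mul']
    simp only [PowerSeries.coeff_mk]
    have := card_F0 m
    rw [← ncard_A] at this
    rw [← this]
    split_ifs <;> simp
  have h2 := PowerSeries.mk_add_choose_mul_one_sub_pow_eq_one (S := ℤ) (d := 5)
  have h3 : ((PowerSeries.mk fun m : ℕ => ((A m).ncard : ℤ)) * (1 - X) ^ 5) * (1 - X)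
      = (1 + X + X ^ 2) * (1 - X) := by
    rw [h1]
    calc _ = (1 - X ^ 3) * ((PowerSeries.mk fun n => ((Nat.choose (5 + n) 5 : ℕ) : ℤ)) *
          (1 - X) ^ (5 + 1)) := by ring
      _ = (1 + X + X ^ 2) * (1 - X) := by rw [h2]; ring
  refine mul_right_cancel₀ ?_ h3
  intro h
  have := congrArg (PowerSeries.coeff (R := ℤ) 0) h
  simp at this

theorem series_swap : (PowerSeries.mk fun m : ℕ => ((B m).ncard : ℤ)) * (1 - X ^ 2) ^ 3
    = 1 + X ^ 3 := by
  have hp : ∀ k, ((Nat.choose (k + 1 + 2) 2 : ℕ) : ℤ) = (Nat.choose (k + 2) 2 : ℕ) + (k + 2) := by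
    intro k
    rw [Nat.choose_succ_succ' (k + 1 + 1) 1]
    simp
    ring
  have e : (PowerSeries.mk fun m : ℕ => ((B m).ncard : ℤ)) * (1 - X ^ 2) ^ 3 =
      (PowerSeries.mk fun m : ℕ => ((B m).ncard : ℤ))
      - 3 * (X ^ 2 * (PowerSeries.mk fun m : ℕ => ((B m).ncard : ℤ)))
      + 3 * (X ^ 4 * (PowerSeries.mk fun m : ℕ => ((B m).ncard : ℤ)))
      - X ^ 6 * (PowerSeries.mk fun m : ℕ => ((B m).ncard : ℤ)) := by ring
  have h3 : (3 : PowerSeries ℤ) = PowerSeries.C (3 : ℤ) := by simp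
  rw [e, h3]
  ext n
  simp only [map_sub, map_add, PowerSeries.coeff_C_mul, PowerSeries.coeff_X_pow_mul',
    PowerSeries.coeff_mk, PowerSeries.coeff_X_pow, PowerSeries.coeff_one]
  have b0 : (B 0).ncard = 1 := ncard_B_even 0
  have b1 : (B 1).ncard = 0 := ncard_B_one
  have b2 : (B 2).ncard = 3 := ncard_B_even 1
  have b3 : (B 3).ncard = 1 := ncard_B_odd 0
  have b4 : (B 4).ncard = 6 := ncard_B_even 2
  have b5 : (B 5).ncard = 3 := ncard_B_odd 1
  obtain hn | hn | hn | hn | hn | hn | hn : n = 0 ∨ n = 1 ∨ n = 2 ∨ n = 3 ∨ n = 4 ∨ n = 5 ∨ 6 ≤ n := by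
    omega
  · subst hn; simp [b0]
  · subst hn; simp [b1]
  · subst hn; simp [b0, b2]
  · subst hn; simp [b1, b3]
  · subst hn; simp [b0, b2, b4]
  · subst hn; simp [b1, b3, b5]
  · rw [if_pos (by omega), if_pos (by omega), if_pos (by omega), if_neg (by omega),
      if_neg (by omega)]
    obtain ⟨k, rfl | rfl⟩ : ∃ k, n = 2 * (k + 3) ∨ n = 2 * (k + 3) + 1 := ⟨n / 2 - 3, by omega⟩
    · rw [show 2 * (k + 3) - 2 = 2 * (k + 2) by omega, show 2 * (k + 3) - 4 = 2 * (k + 1) by omega,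
        show 2 * (k + 3) - 6 = 2 * k by omega, ncard_B_even, ncard_B_even, ncard_B_even,
        ncard_B_even]
      have p1 := hp k
      have p2 := hp (k + 1)
      have p3 := hp (k + 2)
      push_cast at p1 p2 p3 ⊢
      linarith
    · rcases Nat.eq_zero_or_pos k with rfl | hk
      · have b7 : (B 7).ncard = 6 := ncard_B_odd 2
        norm_num
        rw [b7, b5, b3, b1]
        norm_num
      · obtain ⟨k, rfl⟩ : ∃ l, k = l + 1 := ⟨k - 1, by omega⟩
        rw [show 2 * (k + 1 + 3) + 1 = 2 * (k + 3) + 3 by omega,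
          show 2 * (k + 3) + 3 - 2 = 2 * (k + 2) + 3 by omega,
          show 2 * (k + 3) + 3 - 4 = 2 * (k + 1) + 3 by omega,
          show 2 * (k + 3) + 3 - 6 = 2 * k + 3 by omega, ncard_B_odd, ncard_B_odd, ncard_B_odd,
          ncard_B_odd]
        have p1 := hp k
        have p2 := hp (k + 1)
        have p3 := hp (k + 2)
        push_cast at p1 p2 p3 ⊢
        linarith

theorem det_one : (Matrix.det (1 - (Polynomial.X : Polynomial ℤ) •
    (1 : Matrix (Fin 4) (Fin 4) ℤ).map Polynomial.C) : Polynomial ℤ) = (1 - Polynomial.X) ^ 4 := by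
  have e : (1 - (Polynomial.X : Polynomial ℤ) • (1 : Matrix (Fin 4) (Fin 4) ℤ).map Polynomial.C)
      = (1 - Polynomial.X : Polynomial ℤ) • (1 : Matrix (Fin 4) (Fin 4) (Polynomial ℤ)) := by
    rw [Matrix.map_one _ (by simp) (by simp), sub_smul, one_smul]
  rw [e, Matrix.det_smul]
  simp

theorem det_swap : (Matrix.det (1 - (Polynomial.X : Polynomial ℤ) •
    gm.map Polynomial.C) : Polynomial ℤ) = (1 - Polynomial.X ^ 2) ^ 2 := by
  have e : (1 - (Polynomial.X : Polynomial ℤ) • gm.map Polynomial.C) =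
      !![1, 0, -Polynomial.X, 0; 0, 1, 0, -Polynomial.X;
        -Polynomial.X, 0, 1, 0; 0, -Polynomial.X, 0, 1] := by
    ext i j : 1
    fin_cases i <;> fin_cases j <;> simp [gm]
  rw [e]
  simp [Matrix.det_succ_row_zero, Fin.sum_univ_succ, Fin.succAbove]
  ring

end Pool.Agent.V8H49.Birkhoff
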